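import Mathlib

set_option autoImplicit false

namespace Pool.Agent.MP_04668c_co.H6

open Finset

/-- Position of `v`: the sum of the gaps `η w` over all `w` that come before `v` in the order `a`. -/
noncomputable def pos {V : Type} [Fintype V] (a : V → ℕ) (η : V → ℝ) (v : V) : ℝ :=
  ∑ w ∈ univ.filter (fun w => a w < a v), η w

theorem abs_pos_sub_le {V : Type} [Fintype V] (a : V → ℕ) (η η' : V → ℝ) (v : V) :
    |pos a η v - pos a η' v| ≤ (Fintype.card V : ℝ) * dist η η' := by
  unfold pos
  rw [← Finset.sum_sub_distrib]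
  calc |∑ w ∈ univ.filter (fun w => a w < a v), (η w - η' w)|
      ≤ ∑ w ∈ univ.filter (fun w => a w < a v), |η w - η' w| := Finset.abs_sum_le_sum_abs _ _
    _ ≤ ∑ w ∈ univ.filter (fun w => a w < a v), dist η η' := by
        apply Finset.sum_le_sum
        intro w _
        rw [← Real.dist_eq]
        exact dist_le_pi_dist η η' w
    _ ≤ ∑ w : V, dist η η' := by
        apply Finset.sum_le_sum_of_subset_of_nonneg (Finset.filter_subset _ _)
        intro _ _ _
        exact dist_nonneg
    _ = (Fintype.card V : ℝ) * dist η η' := by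
        simp [Finset.sum_const, nsmul_eq_mul]

/-- One step of the iteration. -/
noncomputable def stepGap {V : Type} [Fintype V] (ε : ℝ) (s : V → Option V) (b : V → ℕ) (ξ : V → ℝ)
    (v : V) : ℝ :=
  match s v with
  | none => 1
  | some v' => ε * |pos b ξ v' - pos b ξ v|

theorem stepGap_dist {V : Type} [Fintype V] (ε : ℝ) (hε : 0 ≤ ε) (s : V → Option V) (b : V → ℕ)
    (ξ ξ' : V → ℝ) (v : V) :
    |stepGap ε s b ξ v - stepGap ε s b ξ' v| ≤ ε * (2 * (Fintype.card V : ℝ) * dist ξ ξ') := by
  unfold stepGap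
  cases hs : s v with
  | none =>
    simp only [sub_self, abs_zero]
    positivity
  | some v' =>
    simp only
    rw [← mul_sub, abs_mul, abs_of_nonneg hε]
    apply mul_le_mul_of_nonneg_left _ hε
    have h1 := abs_abs_sub_abs_le_abs_sub (pos b ξ v' - pos b ξ v) (pos b ξ' v' - pos b ξ' v)
    have h2 := abs_pos_sub_le b ξ ξ' v'
    have h3 := abs_pos_sub_le b ξ ξ' v
    have h4 : (pos b ξ v' - pos b ξ v) - (pos b ξ' v' - pos b ξ' v)
        = (pos b ξ v' - pos b ξ' v') - (pos b ξ v - pos b ξ' v) := by ring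
    rw [h4] at h1
    have h5 := abs_sub (pos b ξ v' - pos b ξ' v') (pos b ξ v - pos b ξ' v)
    linarith

/-- Existence of the gaps: for every pair of orders and every choice of the used gaps there is a
solution of the gap equations for some positive `ε`. -/
theorem exists_gaps {V : Type} [Fintype V] (a b : V → ℕ) (s t : V → Option V) :
    ∃ ε : ℝ, 0 < ε ∧ ∃ η ξ : V → ℝ,
      (∀ v, s v = none → η v = 1) ∧
      (∀ v v', s v = some v' → η v = ε * |pos b ξ v' - pos b ξ v|) ∧
      (∀ v, t v = none → ξ v = 1) ∧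
      (∀ v v', t v = some v' → ξ v = ε * |pos a η v' - pos a η v|) := by
  set N : ℝ := (Fintype.card V : ℝ) with hN
  have hN0 : 0 ≤ N := by positivity
  set ε : ℝ := 1 / (4 * (N + 1)) with hεdef
  have hε : 0 < ε := by positivity
  have hε2 : ε * (2 * N) ≤ 1 / 2 := by
    rw [hεdef, div_mul_eq_mul_div, div_le_iff₀ (by positivity)]
    nlinarith
  refine ⟨ε, hε, ?_⟩
  let Φ : (V → ℝ) × (V → ℝ) → (V → ℝ) × (V → ℝ) := fun z =>
    (fun v => stepGap ε s b z.2 v, fun v => stepGap ε t a z.1 v)
  have hΦ : ContractingWith (1/2 : NNReal) Φ := by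
    refine ⟨by norm_num, ?_⟩
    apply LipschitzWith.of_dist_le_mul
    intro z z'
    have hd1 : dist z.1 z'.1 ≤ dist z z' := by rw [Prod.dist_eq]; exact le_max_left _ _
    have hd2 : dist z.2 z'.2 ≤ dist z z' := by rw [Prod.dist_eq]; exact le_max_right _ _
    have h0 : 0 ≤ dist z z' := dist_nonneg
    have hK : (((1/2 : NNReal)) : ℝ) = 1/2 := by norm_num
    rw [hK]
    rw [Prod.dist_eq]
    apply max_le
    · rw [dist_pi_le_iff (by positivity)]
      intro v
      rw [Real.dist_eq]
      refine (stepGap_dist ε hε.le s b z.2 z'.2 v).trans ?_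
      calc ε * (2 * (Fintype.card V : ℝ) * dist z.2 z'.2) = (ε * (2 * N)) * dist z.2 z'.2 := by
            rw [hN]; ring
        _ ≤ (1/2) * dist z z' := by
            apply mul_le_mul hε2 hd2 dist_nonneg (by norm_num)
    · rw [dist_pi_le_iff (by positivity)]
      intro v
      rw [Real.dist_eq]
      refine (stepGap_dist ε hε.le t a z.1 z'.1 v).trans ?_
      calc ε * (2 * (Fintype.card V : ℝ) * dist z.1 z'.1) = (ε * (2 * N)) * dist z.1 z'.1 := by
            rw [hN]; ring
        _ ≤ (1/2) * dist z z' := by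
            apply mul_le_mul hε2 hd1 dist_nonneg (by norm_num)
  haveI : Nonempty ((V → ℝ) × (V → ℝ)) := ⟨(fun _ => 0, fun _ => 0)⟩
  obtain ⟨z, hz⟩ : ∃ z, Φ z = z := ⟨ContractingWith.fixedPoint Φ hΦ, ContractingWith.fixedPoint_isFixedPt hΦ⟩
  have hz1 : ∀ v, z.1 v = stepGap ε s b z.2 v := fun v => (congrFun (congrArg Prod.fst hz) v).symm
  have hz2 : ∀ v, z.2 v = stepGap ε t a z.1 v := fun v => (congrFun (congrArg Prod.snd hz) v).symm
  refine ⟨z.1, z.2, ?_, ?_, ?_, ?_⟩
  · intro v hv
    rw [hz1 v]; unfold stepGap; rw [hv]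
  · intro v v' hv
    rw [hz1 v]; unfold stepGap; rw [hv]
  · intro v hv
    rw [hz2 v]; unfold stepGap; rw [hv]
  · intro v v' hv
    rw [hz2 v]; unfold stepGap; rw [hv]

theorem pos_add_le {V : Type} [Fintype V] (a : V → ℕ) (η : V → ℝ) (h0 : ∀ v, 0 ≤ η v)
    {u v : V} (h : a u < a v) : pos a η u + η u ≤ pos a η v := by
  classical
  unfold pos
  have hu : u ∉ univ.filter (fun w => a w < a u) := by simp
  rw [add_comm, ← Finset.sum_insert hu]
  apply Finset.sum_le_sum_of_subset_of_nonneg
  · intro w hw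
    rw [Finset.mem_insert] at hw
    rcases hw with rfl | hw
    · simpa using h
    · simp only [mem_filter, mem_univ, true_and] at hw ⊢
      omega
  · intro w _ _
    exact h0 w

theorem pos_succ {V : Type} [Fintype V] (a : V → ℕ) (ha : Function.Injective a) (η : V → ℝ)
    {u v : V} (h : a v = a u + 1) : pos a η v = pos a η u + η u := by
  classical
  unfold pos
  have hu : u ∉ univ.filter (fun w => a w < a u) := by simp
  rw [add_comm, ← Finset.sum_insert hu]
  congr 1
  ext w
  simp only [mem_filter, mem_univ, true_and, Finset.mem_insert]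
  constructor
  · intro hw
    by_cases hwu : w = u
    · exact Or.inl hwu
    · right
      have : a w ≠ a u := fun h' => hwu (ha h')
      omega
  · rintro (rfl | hw)
    · omega
    · omega

end Pool.Agent.MP_04668c_co.H6
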