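import Mathlib
import Pool.Agent.Lib.MP_04668c_co.H6.Gaps

set_option autoImplicit false

namespace Pool.Agent.MP_04668c_co.H6

open Finset

/-- A set closed under taking the next vertex (up to its last vertex) is connected. -/
theorem connected_of_succ {V : Type} [Finite V] (a : V → ℕ) (ha : Function.Injective a)
    (F : SimpleGraph V) (U : Set V) (hU : U.Nonempty)
    (h : ∀ w ∈ U, ∀ w₂ ∈ U, a w < a w₂ → ∃ w' ∈ U, F.Adj w w' ∧ a w' = a w + 1) :
    (F.induce U).Connected := by
  classical
  obtain ⟨m, hmU, hm⟩ := Set.exists_max_image U a (Set.toFinite U) hU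
  have key : ∀ k : ℕ, ∀ w : U, a m - a w.1 = k → (F.induce U).Reachable w ⟨m, hmU⟩ := by
    intro k
    induction k with
    | zero =>
      intro w hw
      have hle := hm w.1 w.2
      have : a w.1 = a m := by omega
      have h2 : w = ⟨m, hmU⟩ := Subtype.ext (ha this)
      rw [h2]
    | succ k ih =>
      intro w hw
      have hlt : a w.1 < a m := by omega
      obtain ⟨w', hw'U, hadj, hw'⟩ := h w.1 w.2 m hmU hlt
      have h1 : (F.induce U).Adj w ⟨w', hw'U⟩ := by
        simpa using hadj
      exact h1.reachable.trans (ih ⟨w', hw'U⟩ (by simp only; omega))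
  have hpre : (F.induce U).Preconnected := by
    intro u v
    exact (key _ u rfl).trans (key _ v rfl).symm
  haveI : Nonempty U := hU.to_subtype
  exact ⟨hpre⟩

theorem core {V : Type} [Fintype V] (a b : V → ℕ) (ha : Function.Injective a)
    (hb : Function.Injective b) (F₁ F₂ : SimpleGraph V)
    (h₁ : ∀ u v, F₁.Adj u v → a v = a u + 1 ∨ a u = a v + 1)
    (h₂ : ∀ u v, F₂.Adj u v → b v = b u + 1 ∨ b u = b v + 1)
    (hno : ∀ U : Set V, U.Nontrivial → ¬ ((F₁.induce U).Connected ∧ (F₂.induce U).Connected)) :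
    ∃ ε : ℝ, 0 < ε ∧ ∃ x y : V → ℝ,
      (∀ u v, a u < a v → y u < y v) ∧ (∀ u v, b u < b v → x u < x v) ∧
      (∀ u v, F₁.Adj u v → |y v - y u| = ε * |x v - x u|) ∧
      (∀ u v, F₂.Adj u v → |x v - x u| = ε * |y v - y u|) := by
  classical
  let s : V → Option V := fun v =>
    if h : ∃ v', F₁.Adj v v' ∧ a v' = a v + 1 then some h.choose else none
  let t : V → Option V := fun v =>
    if h : ∃ v', F₂.Adj v v' ∧ b v' = b v + 1 then some h.choose else none
  have hs : ∀ v v', s v = some v' → F₁.Adj v v' ∧ a v' = a v + 1 := by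
    intro v v' h
    by_cases h' : ∃ v', F₁.Adj v v' ∧ a v' = a v + 1
    · have : s v = some h'.choose := dif_pos h'
      rw [this] at h
      have h3 := Option.some.inj h
      rw [← h3]
      exact h'.choose_spec
    · have : s v = none := dif_neg h'
      rw [this] at h
      cases h
  have ht : ∀ v v', t v = some v' → F₂.Adj v v' ∧ b v' = b v + 1 := by
    intro v v' h
    by_cases h' : ∃ v', F₂.Adj v v' ∧ b v' = b v + 1
    · have : t v = some h'.choose := dif_pos h'
      rw [this] at h
      have h3 := Option.some.inj h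
      rw [← h3]
      exact h'.choose_spec
    · have : t v = none := dif_neg h'
      rw [this] at h
      cases h
  have hs' : ∀ v v', F₁.Adj v v' → a v' = a v + 1 → s v = some v' := by
    intro v v' hadj hv'
    have h' : ∃ v', F₁.Adj v v' ∧ a v' = a v + 1 := ⟨v', hadj, hv'⟩
    have h2 : s v = some h'.choose := dif_pos h'
    rw [h2]
    congr 1
    apply ha
    rw [h'.choose_spec.2, hv']
  have ht' : ∀ v v', F₂.Adj v v' → b v' = b v + 1 → t v = some v' := by
    intro v v' hadj hv'
    have h' : ∃ v', F₂.Adj v v' ∧ b v' = b v + 1 := ⟨v', hadj, hv'⟩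
    have h2 : t v = some h'.choose := dif_pos h'
    rw [h2]
    congr 1
    apply hb
    rw [h'.choose_spec.2, hv']
  obtain ⟨ε, hε, η, ξ, hη1, hη2, hξ1, hξ2⟩ := exists_gaps a b s t
  set y : V → ℝ := pos a η with hy
  set x : V → ℝ := pos b ξ with hx
  have hη0 : ∀ v, 0 ≤ η v := by
    intro v
    cases h : s v with
    | none => rw [hη1 v h]; norm_num
    | some v' => rw [hη2 v v' h]; positivity
  have hξ0 : ∀ v, 0 ≤ ξ v := by
    intro v
    cases h : t v with
    | none => rw [hξ1 v h]; norm_num
    | some v' => rw [hξ2 v v' h]; positivity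
  -- a zero gap is used and its two ends coincide
  have hηz : ∀ v, η v = 0 → ∃ v', F₁.Adj v v' ∧ a v' = a v + 1 ∧ x v' = x v ∧ y v' = y v := by
    intro v hv
    cases h : s v with
    | none => rw [hη1 v h] at hv; norm_num at hv
    | some v' =>
      obtain ⟨hadj, hav⟩ := hs v v' h
      refine ⟨v', hadj, hav, ?_, ?_⟩
      · have h3 := hη2 v v' h
        rw [hv] at h3
        have h4 : |x v' - x v| = 0 := by
          rcases mul_eq_zero.mp h3.symm with h5 | h5
          · exact absurd h5 hε.ne'
          · exact h5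
        have h5 := abs_eq_zero.mp h4
        linarith
      · rw [hy, pos_succ a ha η hav, hv, add_zero]
  have hξz : ∀ v, ξ v = 0 → ∃ v', F₂.Adj v v' ∧ b v' = b v + 1 ∧ x v' = x v ∧ y v' = y v := by
    intro v hv
    cases h : t v with
    | none => rw [hξ1 v h] at hv; norm_num at hv
    | some v' =>
      obtain ⟨hadj, hav⟩ := ht v v' h
      refine ⟨v', hadj, hav, ?_, ?_⟩
      · rw [hx, pos_succ b hb ξ hav, hv, add_zero]
      · have h3 := hξ2 v v' h
        rw [hv] at h3
        have h4 : |y v' - y v| = 0 := by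
          rcases mul_eq_zero.mp h3.symm with h5 | h5
          · exact absurd h5 hε.ne'
          · exact h5
        have h5 := abs_eq_zero.mp h4
        linarith
  -- no two vertices coincide
  have hinj : ∀ u v, u ≠ v → ¬ (x u = x v ∧ y u = y v) := by
    intro u v huv ⟨hxe, hye⟩
    let U : Set V := {w | x w = x u ∧ y w = y u}
    have huU : u ∈ U := ⟨rfl, rfl⟩
    have hvU : v ∈ U := ⟨hxe.symm, hye.symm⟩
    have hnt : U.Nontrivial := ⟨u, huU, v, hvU, huv⟩
    refine hno U hnt ⟨?_, ?_⟩
    · apply connected_of_succ a ha F₁ U ⟨u, huU⟩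
      intro w hw w₂ hw₂ hlt
      have h1 := pos_add_le a η hη0 hlt
      have h2 : η w = 0 := by
        have h3 : pos a η w = y w := rfl
        have h4 : pos a η w₂ = y w₂ := rfl
        rw [h3, h4, hw.2, hw₂.2] at h1
        linarith [hη0 w]
      obtain ⟨w', hadj, haw, hxw, hyw⟩ := hηz w h2
      exact ⟨w', ⟨hxw.trans hw.1, hyw.trans hw.2⟩, hadj, haw⟩
    · apply connected_of_succ b hb F₂ U ⟨u, huU⟩
      intro w hw w₂ hw₂ hlt
      have h1 := pos_add_le b ξ hξ0 hlt
      have h2 : ξ w = 0 := by
        have h3 : pos b ξ w = x w := rfl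
        have h4 : pos b ξ w₂ = x w₂ := rfl
        rw [h3, h4, hw.1, hw₂.1] at h1
        linarith [hξ0 w]
      obtain ⟨w', hadj, haw, hxw, hyw⟩ := hξz w h2
      exact ⟨w', ⟨hxw.trans hw.1, hyw.trans hw.2⟩, hadj, haw⟩
  have hηp : ∀ v, 0 < η v := by
    intro v
    rcases (hη0 v).lt_or_eq with h | h
    · exact h
    · exfalso
      obtain ⟨v', hadj, hav, hxv, hyv⟩ := hηz v h.symm
      exact hinj v' v (F₁.ne_of_adj hadj).symm ⟨hxv, hyv⟩
  have hξp : ∀ v, 0 < ξ v := by
    intro v
    rcases (hξ0 v).lt_or_eq with h | h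
    · exact h
    · exfalso
      obtain ⟨v', hadj, hav, hxv, hyv⟩ := hξz v h.symm
      exact hinj v' v (F₂.ne_of_adj hadj).symm ⟨hxv, hyv⟩
  refine ⟨ε, hε, x, y, ?_, ?_, ?_, ?_⟩
  · intro u v h
    have := pos_add_le a η hη0 h
    have h2 := hηp u
    have h3 : pos a η u = y u := rfl
    have h4 : pos a η v = y v := rfl
    rw [h3, h4] at this
    linarith
  · intro u v h
    have := pos_add_le b ξ hξ0 h
    have h2 := hξp u
    have h3 : pos b ξ u = x u := rfl
    have h4 : pos b ξ v = x v := rfl
    rw [h3, h4] at this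
    linarith
  · have main : ∀ u v, F₁.Adj u v → a v = a u + 1 → |y v - y u| = ε * |x v - x u| := by
      intro u v hadj hav
      have h1 := hη2 u v (hs' u v hadj hav)
      have h2 : y v = y u + η u := pos_succ a ha η hav
      rw [h2, h1]
      have h3 : y u + ε * |pos b ξ v - pos b ξ u| - y u = ε * |x v - x u| := by
        rw [hx]; ring
      rw [h3]
      exact abs_of_nonneg (by positivity)
    intro u v hadj
    rcases h₁ u v hadj with h | h
    · exact main u v hadj h
    · rw [abs_sub_comm (y v), abs_sub_comm (x v)]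
      exact main v u hadj.symm h
  · have main : ∀ u v, F₂.Adj u v → b v = b u + 1 → |x v - x u| = ε * |y v - y u| := by
      intro u v hadj hav
      have h1 := hξ2 u v (ht' u v hadj hav)
      have h2 : x v = x u + ξ u := pos_succ b hb ξ hav
      rw [h2, h1]
      have h3 : x u + ε * |pos a η v - pos a η u| - x u = ε * |y v - y u| := by
        rw [hy]; ring
      rw [h3]
      exact abs_of_nonneg (by positivity)
    intro u v hadj
    rcases h₂ u v hadj with h | h
    · exact main u v hadj h
    · rw [abs_sub_comm (x v), abs_sub_comm (y v)]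
      exact main v u hadj.symm h

end Pool.Agent.MP_04668c_co.H6
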