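import Mathlib

set_option autoImplicit false

namespace Pool.Agent.MP_04668c_co.H6

/-- `G` has a straight-line drawing (distinct points, no vertex on an edge it is not an end of) in
which the edges have at most `k` different slopes (directions). The clauses are those of the frozen
statement. -/
def HasDrawing {V : Type} (G : SimpleGraph V) (k : ℕ) : Prop :=
  ∃ f : V → ℝ × ℝ, Function.Injective f ∧
    (∀ u v w : V, G.Adj u v → w ≠ u → w ≠ v → f w ∉ segment ℝ (f u) (f v)) ∧
    ∃ S : Finset (ℝ × ℝ), S.card ≤ k ∧
      ∀ u v : V, G.Adj u v → ∃ d ∈ S, ∃ t : ℝ, f v - f u = t • d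

/-- A linear forest (a graph all of whose components are paths), in the form: the vertices can be
numbered injectively by natural numbers such that adjacent vertices get consecutive numbers. -/
def LinearForest {V : Type} (H : SimpleGraph V) : Prop :=
  ∃ a : V → ℕ, Function.Injective a ∧ ∀ u v, H.Adj u v → a v = a u + 1 ∨ a u = a v + 1

/-- The union of the cycle `0, 1, …, n-1` and of the cycle `σ⁻¹ 0, σ⁻¹ 1, …, σ⁻¹ (n-1)`, as a graph
on `ZMod n`: a general union of two Hamiltonian cycles on `n` labelled vertices, the first one being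
the standard one. -/
def twoCycles (n : ℕ) (σ : Equiv.Perm (ZMod n)) : SimpleGraph (ZMod n) where
  Adj i j := i ≠ j ∧ (j = i + 1 ∨ i = j + 1 ∨ σ j = σ i + 1 ∨ σ i = σ j + 1)
  symm := ⟨fun i j h => ⟨h.1.symm, by tauto⟩⟩
  loopless := ⟨fun i h => h.1 rfl⟩

end Pool.Agent.MP_04668c_co.H6
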