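import Mathlib
import Pool.Agent.Lib.MP_04668c_co.H6.Core
import Pool.Agent.Lib.MP_04668c_co.H6.Defs

set_option autoImplicit false

namespace Pool.Agent.MP_04668c_co.H6

open Finset

/-- A drawing of the part of `G` inside the vertex set `A`. -/
def DrawOn {V : Type} (G : SimpleGraph V) (A : Finset V) (k : ℕ) : Prop :=
  ∃ f : V → ℝ × ℝ, (∀ u ∈ A, ∀ v ∈ A, f u = f v → u = v) ∧
    (∀ u ∈ A, ∀ v ∈ A, ∀ w ∈ A, G.Adj u v → w ≠ u → w ≠ v → f w ∉ segment ℝ (f u) (f v)) ∧
    ∃ S : Finset (ℝ × ℝ), S.card ≤ k ∧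
      ∀ u ∈ A, ∀ v ∈ A, G.Adj u v → ∃ d ∈ S, ∃ t : ℝ, f v - f u = t • d

theorem snd_not_mem {p q r : ℝ × ℝ} (h : (r.2 < p.2 ∧ r.2 < q.2) ∨ (p.2 < r.2 ∧ q.2 < r.2)) :
    r ∉ segment ℝ p q := by
  rintro ⟨α, β, hα, hβ, hαβ, he⟩
  have h2 : α * p.2 + β * q.2 = r.2 := by
    have := congrArg Prod.snd he
    simpa using this
  have hβ' : β = 1 - α := by linarith
  subst hβ'
  rcases h with ⟨h1, h3⟩ | ⟨h1, h3⟩
  · nlinarith [mul_nonneg hα (sub_nonneg.mpr h1.le), mul_nonneg hβ (sub_nonneg.mpr h3.le)]
  · nlinarith [mul_nonneg hα (sub_nonneg.mpr h1.le), mul_nonneg hβ (sub_nonneg.mpr h3.le)]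

theorem fst_not_mem {p q r : ℝ × ℝ} (h : (r.1 < p.1 ∧ r.1 < q.1) ∨ (p.1 < r.1 ∧ q.1 < r.1)) :
    r ∉ segment ℝ p q := by
  rintro ⟨α, β, hα, hβ, hαβ, he⟩
  have h2 : α * p.1 + β * q.1 = r.1 := by
    have := congrArg Prod.fst he
    simpa using this
  have hβ' : β = 1 - α := by linarith
  subst hβ'
  rcases h with ⟨h1, h3⟩ | ⟨h1, h3⟩
  · nlinarith [mul_nonneg hα (sub_nonneg.mpr h1.le), mul_nonneg hβ (sub_nonneg.mpr h3.le)]
  · nlinarith [mul_nonneg hα (sub_nonneg.mpr h1.le), mul_nonneg hβ (sub_nonneg.mpr h3.le)]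

/-- Consecutive labels: every other label is below both or above both. -/
theorem outside {V : Type} (a : V → ℕ) (ha : Function.Injective a) {u v w : V}
    (h : a v = a u + 1 ∨ a u = a v + 1) (hwu : w ≠ u) (hwv : w ≠ v) :
    (a w < a u ∧ a w < a v) ∨ (a u < a w ∧ a v < a w) := by
  have h1 : a w ≠ a u := fun h' => hwu (ha h')
  have h2 : a w ≠ a v := fun h' => hwv (ha h')
  rcases h with h | h <;> omega

/-- The basic drawing: two linear forests without a set of at least two vertices that is connected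
in both of them (after deleting the exceptional edges `K`). -/
theorem base_draw {V : Type} [Fintype V] (G H₁ H₂ : SimpleGraph V) (K : Finset (Sym2 V))
    (A : Finset V)
    (h₁ : LinearForest H₁) (h₂ : LinearForest H₂)
    (hcov : ∀ u ∈ A, ∀ v ∈ A, G.Adj u v → H₁.Adj u v ∨ H₂.Adj u v)
    (hno : ∀ U : Set V, U.Nontrivial →
      ¬ (((H₁.deleteEdges (K : Set (Sym2 V))).induce U).Connected ∧
          ((H₂.deleteEdges (K : Set (Sym2 V))).induce U).Connected)) :
    DrawOn G A (4 + K.card) := by
  classical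
  obtain ⟨a, ha, hac⟩ := h₁
  obtain ⟨b, hb, hbc⟩ := h₂
  obtain ⟨ε, hε, x, y, hy, hx, hF1, hF2⟩ := core a b ha hb
    (H₁.deleteEdges (K : Set (Sym2 V))) (H₂.deleteEdges (K : Set (Sym2 V)))
    (fun u v h => hac u v ((SimpleGraph.deleteEdges_adj.mp h).1))
    (fun u v h => hbc u v ((SimpleGraph.deleteEdges_adj.mp h).1)) hno
  let f : V → ℝ × ℝ := fun v => (x v, y v)
  let D : Sym2 V → ℝ × ℝ := fun e =>
    if h : ∃ p : V × V, s(p.1, p.2) = e then f h.choose.2 - f h.choose.1 else 0
  have hD : ∀ u v, ∃ t : ℝ, f v - f u = t • D s(u, v) := by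
    intro u v
    have h : ∃ p : V × V, s(p.1, p.2) = s(u, v) := ⟨(u, v), rfl⟩
    have h2 : D s(u, v) = f h.choose.2 - f h.choose.1 := dif_pos h
    rw [h2]
    have h3 := h.choose_spec
    rw [Sym2.eq_iff] at h3
    rcases h3 with ⟨h4, h5⟩ | ⟨h4, h5⟩
    · rw [h4, h5]; exact ⟨1, by simp⟩
    · rw [h4, h5]; exact ⟨-1, by simp⟩
  refine ⟨f, ?_, ?_, ({(1, ε), (1, -ε), (ε, 1), (-ε, 1)} : Finset (ℝ × ℝ)) ∪ K.image D, ?_, ?_⟩
  · intro u _ v _ huv
    by_contra hne
    have hane : a u ≠ a v := fun h => hne (ha h)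
    have h2 : y u = y v := congrArg Prod.snd huv
    rcases lt_or_gt_of_ne hane with h | h
    · have := hy u v h; linarith
    · have := hy v u h; linarith
  · intro u hu v hv w _ hadj hwu hwv
    rcases hcov u hu v hv hadj with h | h
    · apply snd_not_mem
      rcases outside a ha (hac u v h) hwu hwv with ⟨h3, h4⟩ | ⟨h3, h4⟩
      · exact Or.inl ⟨hy _ _ h3, hy _ _ h4⟩
      · exact Or.inr ⟨hy _ _ h3, hy _ _ h4⟩
    · apply fst_not_mem
      rcases outside b hb (hbc u v h) hwu hwv with ⟨h3, h4⟩ | ⟨h3, h4⟩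
      · exact Or.inl ⟨hx _ _ h3, hx _ _ h4⟩
      · exact Or.inr ⟨hx _ _ h3, hx _ _ h4⟩
  · refine (Finset.card_union_le _ _).trans ?_
    exact Nat.add_le_add Finset.card_le_four Finset.card_image_le
  · intro u hu v hv hadj
    by_cases hK : s(u, v) ∈ K
    · obtain ⟨t, ht⟩ := hD u v
      exact ⟨D s(u, v), Finset.mem_union_right _ (Finset.mem_image_of_mem _ hK), t, ht⟩
    · rcases hcov u hu v hv hadj with h | h
      · have h3 := hF1 u v (SimpleGraph.deleteEdges_adj.mpr ⟨h, by simpa using hK⟩)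
        have h4 : |y v - y u| = |ε * (x v - x u)| := by rw [h3, abs_mul, abs_of_pos hε]
        rcases abs_eq_abs.mp h4 with h5 | h5
        · refine ⟨(1, ε), by simp, x v - x u, ?_⟩
          ext
          · simp [f]
          · simp only [f, Prod.snd_sub, Prod.smul_snd, smul_eq_mul]; rw [h5]; ring
        · refine ⟨(1, -ε), by simp, x v - x u, ?_⟩
          ext
          · simp [f]
          · simp only [f, Prod.snd_sub, Prod.smul_snd, smul_eq_mul]; rw [h5]; ring
      · have h3 := hF2 u v (SimpleGraph.deleteEdges_adj.mpr ⟨h, by simpa using hK⟩)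
        have h4 : |x v - x u| = |ε * (y v - y u)| := by rw [h3, abs_mul, abs_of_pos hε]
        rcases abs_eq_abs.mp h4 with h5 | h5
        · refine ⟨(ε, 1), by simp, y v - y u, ?_⟩
          ext
          · simp only [f, Prod.fst_sub, Prod.smul_fst, smul_eq_mul]; rw [h5]; ring
          · simp [f]
        · refine ⟨(-ε, 1), by simp, y v - y u, ?_⟩
          ext
          · simp only [f, Prod.fst_sub, Prod.smul_fst, smul_eq_mul]; rw [h5]; ring
          · simp [f]

/-- Adding one vertex at a general position. -/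
theorem extend_draw {V : Type} [Fintype V] [DecidableEq V] (G : SimpleGraph V) (A : Finset V)
    (k d : ℕ) (w : V) (hw : w ∉ A) (hd : (G.neighborSet w).ncard ≤ d) (h : DrawOn G A k) :
    DrawOn G (insert w A) (k + d) := by
  classical
  obtain ⟨f, hinj, hseg, S, hS, hslope⟩ := h
  -- a vertical line missing all the points, and a point on it off all the lines
  obtain ⟨c, hc⟩ : ∃ c : ℝ, c ∉ A.image (fun u => (f u).1) :=
    Infinite.exists_notMem_finset _
  let T : Finset ℝ := (A ×ˢ A).image (fun p =>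
    ((f p.2).2 - (f p.1).2) * (c - (f p.1).1) / ((f p.2).1 - (f p.1).1) + (f p.1).2)
  obtain ⟨t, ht⟩ : ∃ t : ℝ, t ∉ T := Infinite.exists_notMem_finset _
  set p : ℝ × ℝ := (c, t) with hp
  have hpne : ∀ u ∈ A, (f u).1 ≠ c := by
    intro u hu h'
    exact hc (Finset.mem_image.mpr ⟨u, hu, h'⟩)
  -- p is on no line through two of the points
  have hline : ∀ u ∈ A, ∀ v ∈ A, f u ≠ f v →
      ((f v).1 - (f u).1) * (t - (f u).2) ≠ ((f v).2 - (f u).2) * (c - (f u).1) := by
    intro u hu v hv huv he
    by_cases hx : (f v).1 - (f u).1 = 0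
    · rw [hx, zero_mul] at he
      rcases mul_eq_zero.mp he.symm with h1 | h1
      · apply huv
        ext
        · linarith
        · linarith
      · exact hpne u hu (by linarith)
    · apply ht
      refine Finset.mem_image.mpr ⟨(u, v), Finset.mk_mem_product hu hv, ?_⟩
      simp only
      rw [← he]
      field_simp
      ring
  set g : V → ℝ × ℝ := Function.update f w p with hg
  have hgw : g w = p := Function.update_self _ _ _
  have hgA : ∀ u ∈ A, g u = f u := by
    intro u hu
    apply Function.update_of_ne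
    rintro rfl
    exact hw hu
  -- no old point on a new segment
  have hnew : ∀ u ∈ A, ∀ v ∈ A, u ≠ v → f v ∉ segment ℝ p (f u) := by
    rintro u hu v hv huv ⟨α, β, hα, hβ, hαβ, he⟩
    have hne : f u ≠ f v := fun h' => huv (hinj u hu v hv h')
    apply hline u hu v hv hne
    have e1 : α * c + β * (f u).1 = (f v).1 := by
      have := congrArg Prod.fst he; simpa [hp] using this
    have e2 : α * t + β * (f u).2 = (f v).2 := by
      have := congrArg Prod.snd he; simpa [hp] using this
    have hβ' : β = 1 - α := by linarith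
    subst hβ'
    rw [← e1, ← e2]
    ring
  -- the new point on no old segment
  have hold : ∀ u ∈ A, ∀ v ∈ A, u ≠ v → p ∉ segment ℝ (f u) (f v) := by
    rintro u hu v hv huv ⟨α, β, hα, hβ, hαβ, he⟩
    have hne : f u ≠ f v := fun h' => huv (hinj u hu v hv h')
    apply hline u hu v hv hne
    have e1 : α * (f u).1 + β * (f v).1 = c := by
      have := congrArg Prod.fst he; simpa [hp] using this
    have e2 : α * (f u).2 + β * (f v).2 = t := by
      have := congrArg Prod.snd he; simpa [hp] using this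
    have hα' : α = 1 - β := by linarith
    subst hα'
    rw [← e1, ← e2]
    ring
  refine ⟨g, ?_, ?_, S ∪ (G.neighborSet w).toFinset.image (fun u => g u - p), ?_, ?_⟩
  · intro u hu v hv huv
    rw [Finset.mem_insert] at hu hv
    rcases hu with rfl | hu <;> rcases hv with rfl | hv
    · rfl
    · exfalso
      rw [hgw, hgA v hv] at huv
      exact hpne v hv (by rw [← huv])
    · exfalso
      rw [hgw, hgA u hu] at huv
      exact hpne u hu (by rw [huv])
    · rw [hgA u hu, hgA v hv] at huv
      exact hinj u hu v hv huv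
  · intro u hu v hv z hz hadj hzu hzv
    rw [Finset.mem_insert] at hu hv hz
    rcases hu with rfl | hu
    · rcases hv with rfl | hv
      · exact absurd rfl (G.ne_of_adj hadj)
      · rcases hz with rfl | hz
        · exact absurd rfl hzu
        · rw [hgw, hgA v hv, hgA z hz]
          exact hnew v hv z hz (Ne.symm hzv)
    · rcases hv with rfl | hv
      · rcases hz with rfl | hz
        · exact absurd rfl hzv
        · rw [hgw, hgA u hu, hgA z hz, segment_symm]
          exact hnew u hu z hz (Ne.symm hzu)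
      · rcases hz with rfl | hz
        · rw [hgw, hgA u hu, hgA v hv]
          exact hold u hu v hv (G.ne_of_adj hadj)
        · rw [hgA u hu, hgA v hv, hgA z hz]
          exact hseg u hu v hv z hz hadj hzu hzv
  · refine (Finset.card_union_le _ _).trans ?_
    refine Nat.add_le_add hS (Finset.card_image_le.trans ?_)
    rw [← Set.ncard_eq_toFinset_card']
    exact hd
  · intro u hu v hv hadj
    rw [Finset.mem_insert] at hu hv
    rcases hu with rfl | hu
    · refine ⟨g v - p, Finset.mem_union_right _ (Finset.mem_image.mpr ⟨v, by simpa using hadj, rfl⟩), 1, ?_⟩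
      rw [hgw, one_smul]
    · rcases hv with rfl | hv
      · refine ⟨g u - p, Finset.mem_union_right _
          (Finset.mem_image.mpr ⟨u, by simpa using hadj.symm, rfl⟩), -1, ?_⟩
        rw [hgw]
        simp
      · obtain ⟨d', hd', t', ht'⟩ := hslope u hu v hv hadj
        exact ⟨d', Finset.mem_union_left _ hd', t', by rw [hgA u hu, hgA v hv]; exact ht'⟩

theorem extend_many {V : Type} [Fintype V] [DecidableEq V] (G : SimpleGraph V) (A : Finset V)
    (k : ℕ) (h : DrawOn G A k) (W : Finset V) (hW : Disjoint W A) :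
    DrawOn G (W ∪ A) (k + ∑ w ∈ W, (G.neighborSet w).ncard) := by
  classical
  induction W using Finset.induction_on with
  | empty => simpa using h
  | insert w W hwW ih =>
    rw [Finset.disjoint_insert_left] at hW
    have h1 := ih hW.2
    have hw : w ∉ W ∪ A := by
      rw [Finset.mem_union]
      rintro (h' | h')
      · exact hwW h'
      · exact hW.1 h'
    have h2 := extend_draw G (W ∪ A) _ _ w hw le_rfl h1
    rw [Finset.insert_union, Finset.sum_insert hwW]
    have h3 : k + ∑ w ∈ W, (G.neighborSet w).ncard + (G.neighborSet w).ncard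
        = k + ((G.neighborSet w).ncard + ∑ w ∈ W, (G.neighborSet w).ncard) := by ring
    rw [← h3]
    exact h2

/-- Main theorem for linear forests. -/
theorem two_linear_forests {V : Type} [Fintype V] (G H₁ H₂ : SimpleGraph V)
    (K : Finset (Sym2 V)) (W : Finset V)
    (h₁ : LinearForest H₁) (h₂ : LinearForest H₂)
    (hcov : ∀ u v, u ∉ W → v ∉ W → G.Adj u v → H₁.Adj u v ∨ H₂.Adj u v)
    (hno : ∀ U : Set V, U.Nontrivial →
      ¬ (((H₁.deleteEdges (K : Set (Sym2 V))).induce U).Connected ∧
          ((H₂.deleteEdges (K : Set (Sym2 V))).induce U).Connected)) :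
    HasDrawing G (4 + K.card + ∑ w ∈ W, (G.neighborSet w).ncard) := by
  classical
  have hb := base_draw G H₁ H₂ K (univ \ W) h₁ h₂
    (fun u hu v hv hadj => hcov u v (Finset.mem_sdiff.mp hu).2 (Finset.mem_sdiff.mp hv).2 hadj) hno
  have he := extend_many G (univ \ W) _ hb W Finset.disjoint_sdiff
  have hu : W ∪ (univ \ W) = univ := by
    rw [Finset.union_sdiff_of_subset (Finset.subset_univ _)]
  rw [hu] at he
  obtain ⟨f, hinj, hseg, S, hS, hslope⟩ := he
  exact ⟨f, fun u v h => hinj u (mem_univ _) v (mem_univ _) h,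
    fun u v w => hseg u (mem_univ _) v (mem_univ _) w (mem_univ _),
    S, hS, fun u v => hslope u (mem_univ _) v (mem_univ _)⟩

end Pool.Agent.MP_04668c_co.H6
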