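import Mathlib
import Pool.Agent.Lib.MP_04668c_co.H6.Draw

set_option autoImplicit false

namespace Pool.Agent.MP_04668c_co.H6

open Finset

/-- Crossing lemma: a connected set crosses every level between two of its labels. -/
theorem cross_edge {V : Type} (F : SimpleGraph V) (a : V → ℕ)
    (hF : ∀ u v, F.Adj u v → a v = a u + 1 ∨ a u = a v + 1) (U : Set V)
    (hc : (F.induce U).Connected) {x y : V} (hx : x ∈ U) (hy : y ∈ U) (m : ℕ)
    (hxm : a x ≤ m) (hym : m < a y) :
    ∃ u ∈ U, ∃ v ∈ U, F.Adj u v ∧ a u = m ∧ a v = m + 1 := by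
  obtain ⟨p⟩ := hc.preconnected ⟨x, hx⟩ ⟨y, hy⟩
  obtain ⟨d, -, hd1, hd2⟩ := p.exists_boundary_dart {z : U | a z.1 ≤ m} hxm (by simpa using hym)
  have hadj : F.Adj d.fst.1 d.snd.1 := by simpa using d.adj
  simp only [Set.mem_ofPred_eq] at hd1 hd2
  refine ⟨d.fst.1, d.fst.2, d.snd.1, d.snd.2, hadj, ?_, ?_⟩ <;>
  rcases hF _ _ hadj with h | h <;> omega

theorem interval_of_connected {V : Type} [Finite V] (F : SimpleGraph V) (a : V → ℕ)
    (ha : Function.Injective a)
    (hF : ∀ u v, F.Adj u v → a v = a u + 1 ∨ a u = a v + 1) (U : Set V)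
    (hc : (F.induce U).Connected) :
    ∃ x ∈ U, ∃ y ∈ U, ∀ v, v ∈ U ↔ a x ≤ a v ∧ a v ≤ a y := by
  have hne : U.Nonempty := by
    obtain ⟨⟨z, hz⟩⟩ := hc.nonempty
    exact ⟨z, hz⟩
  obtain ⟨x, hxU, hx⟩ := Set.exists_min_image U a (Set.toFinite U) hne
  obtain ⟨y, hyU, hy⟩ := Set.exists_max_image U a (Set.toFinite U) hne
  refine ⟨x, hxU, y, hyU, fun v => ⟨fun hv => ⟨hx v hv, hy v hv⟩, ?_⟩⟩
  rintro ⟨h1, h2⟩
  rcases h1.eq_or_lt with h | h
  · rw [← ha h]; exact hxU
  · obtain ⟨u, -, w, hw, -, -, hw2⟩ := cross_edge F a hF U hc hxU hyU (a v - 1) (by omega) (by omega)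
    have : a w = a v := by omega
    rw [← ha this]; exact hw

theorem val_sub_lt_iff {n : ℕ} [NeZero n] (v : ZMod n) (p q : ℕ) (hpq : p ≤ q) (hq : q < n) :
    (v - (p : ZMod n)).val < q - p + 1 ↔ p ≤ v.val ∧ v.val ≤ q := by
  have hpv : ((p : ℕ) : ZMod n).val = p := ZMod.val_cast_of_lt (by omega)
  by_cases h : p ≤ v.val
  · have h1 : (v - (p : ZMod n)).val = v.val - p := by
      rw [ZMod.val_sub (by rw [hpv]; exact h), hpv]
    rw [h1]; omega
  · have hlt : v.val < p := by omega
    have hvn : v.val < n := ZMod.val_lt v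
    have h1 : (v - (p : ZMod n)).val = v.val + n - p := by
      have h2 : v - (p : ZMod n) = ((v.val + n - p : ℕ) : ZMod n) := by
        rw [Nat.cast_sub (by omega), Nat.cast_add, ZMod.natCast_val, ZMod.natCast_self, add_zero,
          ZMod.cast_id', id_eq]
      rw [h2, ZMod.val_cast_of_lt (by omega)]
    rw [h1]; omega

theorem card_val_lt {n : ℕ} [NeZero n] (s : ZMod n) (k : ℕ) (hk : k ≤ n) :
    (univ.filter (fun v : ZMod n => (v - s).val < k)).card = k := by
  have h1 : (univ.filter (fun v : ZMod n => (v - s).val < k)).card = (Finset.range k).card := by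
    apply Finset.card_bij (fun v _ => (v - s).val)
    · intro v hv
      simpa using hv
    · intro u _ v _ huv
      have := ZMod.val_injective n huv
      exact sub_left_injective this
    · intro m hm
      rw [Finset.mem_range] at hm
      refine ⟨(m : ZMod n) + s, ?_, ?_⟩
      · simp only [mem_filter, mem_univ, true_and, add_sub_cancel_right]
        rw [ZMod.val_cast_of_lt (by omega)]; exact hm
      · simp only [add_sub_cancel_right]
        rw [ZMod.val_cast_of_lt (by omega)]
  rw [h1, Finset.card_range]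

/-- Two Hamiltonian cycles without a common arc of size between `3` and `n - 3`. -/
theorem ham {n : ℕ} [NeZero n] (hn : 5 ≤ n) (σ : Equiv.Perm (ZMod n))
    (h : ∀ s t : ZMod n, ∀ k, 3 ≤ k → k ≤ n - 3 →
      ¬ ∀ v, (v - s).val < k ↔ (σ v - t).val < k) : HasDrawing (twoCycles n σ) 9 := by
  classical
  let a : ZMod n → ℕ := fun v => v.val
  let b : ZMod n → ℕ := fun v => (σ v - σ 0).val
  have ha : Function.Injective a := ZMod.val_injective n
  have hb : Function.Injective b := by
    intro u v huv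
    have h1 := ZMod.val_injective n huv
    exact σ.injective (sub_left_injective h1)
  have ha0 : a 0 = 0 := ZMod.val_zero
  have hb0 : b 0 = 0 := by simp [b]
  have hane : ∀ v, v ≠ 0 → a v ≠ 0 := fun v hv h' => hv (ha (h'.trans ha0.symm))
  have hbne : ∀ v, v ≠ 0 → b v ≠ 0 := fun v hv h' => hv (hb (h'.trans hb0.symm))
  let H₁ : SimpleGraph (ZMod n) :=
    { Adj := fun u v => u ≠ 0 ∧ v ≠ 0 ∧ (a v = a u + 1 ∨ a u = a v + 1)
      symm := ⟨fun u v h => ⟨h.2.1, h.1, h.2.2.symm⟩⟩
      loopless := ⟨fun u h => by rcases h.2.2 with h | h <;> omega⟩ }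
  let H₂ : SimpleGraph (ZMod n) :=
    { Adj := fun u v => (u ≠ 0 ∧ v ≠ 0 ∧ (b v = b u + 1 ∨ b u = b v + 1)) ∧ ¬ H₁.Adj u v
      symm := ⟨fun u v h => ⟨⟨h.1.2.1, h.1.1, h.1.2.2.symm⟩, fun h' => h.2 h'.symm⟩⟩
      loopless := ⟨fun u h => by rcases h.1.2.2 with h | h <;> omega⟩ }
  let K : Finset (Sym2 (ZMod n)) := {s((2 : ZMod n), (3 : ZMod n))}
  have h2v : ((2 : ℕ) : ZMod n).val = 2 := ZMod.val_cast_of_lt (by omega)
  have h3v : ((3 : ℕ) : ZMod n).val = 3 := ZMod.val_cast_of_lt (by omega)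
  have hF1 : ∀ u v, (H₁.deleteEdges (K : Set (Sym2 (ZMod n)))).Adj u v →
      a v = a u + 1 ∨ a u = a v + 1 := fun u v h => (SimpleGraph.deleteEdges_adj.mp h).1.2.2
  have hF2 : ∀ u v, (H₂.deleteEdges (K : Set (Sym2 (ZMod n)))).Adj u v →
      b v = b u + 1 ∨ b u = b v + 1 := fun u v h => (SimpleGraph.deleteEdges_adj.mp h).1.1.2.2
  have hstep : ∀ u v : ZMod n, v ≠ 0 → v = u + 1 → v.val = u.val + 1 := by
    intro u v hv huv
    by_cases hlt : u.val + 1 < n
    · rw [huv]
      have h1 : (1 : ZMod n).val = 1 := by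
        have : ((1 : ℕ) : ZMod n).val = 1 := ZMod.val_cast_of_lt (by omega)
        simpa using this
      rw [ZMod.val_add_of_lt (by rw [h1]; exact hlt), h1]
    · exfalso
      apply hv
      have hun : u.val < n := ZMod.val_lt u
      have h1 : u.val + 1 = n := by omega
      have h2 : ((u.val + 1 : ℕ) : ZMod n) = 0 := by rw [h1]; exact ZMod.natCast_self n
      rw [Nat.cast_add, ZMod.natCast_val, ZMod.cast_id', id_eq, Nat.cast_one] at h2
      rw [huv, h2]
  have key := two_linear_forests (twoCycles n σ) H₁ H₂ K {0}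
    ⟨a, ha, fun u v h => h.2.2⟩ ⟨b, hb, fun u v h => h.1.2.2⟩ ?_ ?_
  · obtain ⟨f, hf1, hf2, S, hS, hf3⟩ := key
    refine ⟨f, hf1, hf2, S, hS.trans ?_, hf3⟩
    have hK : K.card = 1 := Finset.card_singleton _
    have hd : ((twoCycles n σ).neighborSet 0).ncard ≤ 4 := by
      have hsub : (twoCycles n σ).neighborSet 0 ⊆
          (({(0 : ZMod n) + 1, 0 - 1, σ.symm (σ 0 + 1), σ.symm (σ 0 - 1)} : Finset (ZMod n)) :
            Set (ZMod n)) := by
        intro v hv
        rw [SimpleGraph.mem_neighborSet] at hv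
        rcases hv.2 with h1 | h1 | h1 | h1
        · rw [h1]; simp
        · have : v = 0 - 1 := by rw [h1]; ring
          rw [this]; simp
        · have : v = σ.symm (σ 0 + 1) := by rw [← h1]; simp
          rw [this]; simp
        · have : v = σ.symm (σ 0 - 1) := by rw [h1]; simp
          rw [this]; simp
      refine (Set.ncard_le_ncard hsub (Finset.finite_toSet _)).trans ?_
      rw [Set.ncard_coe_finset]
      exact Finset.card_le_four
    rw [hK, Finset.sum_singleton]
    omega
  · intro u v hu hv hadj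
    rw [Finset.mem_singleton] at hu hv
    by_cases hH : H₁.Adj u v
    · exact Or.inl hH
    · right
      refine ⟨⟨hu, hv, ?_⟩, hH⟩
      rcases hadj.2 with h1 | h1 | h1 | h1
      · exact absurd ⟨hu, hv, Or.inl (hstep u v hv h1)⟩ hH
      · exact absurd ⟨hu, hv, Or.inr (hstep v u hu h1)⟩ hH
      · left
        apply hstep (σ u - σ 0) (σ v - σ 0)
        · exact fun h' => hv (σ.injective (sub_eq_zero.mp h'))
        · rw [h1]; ring
      · right
        apply hstep (σ v - σ 0) (σ u - σ 0)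
        · exact fun h' => hu (σ.injective (sub_eq_zero.mp h'))
        · rw [h1]; ring
  · rintro U hU ⟨hc1, hc2⟩
    -- no isolated vertex in U
    have h0U : (0 : ZMod n) ∉ U := by
      intro h0
      obtain ⟨z, hz, hz0⟩ := hU.exists_ne 0
      obtain ⟨u, hu, v, hv, hadj, hu', hv'⟩ := cross_edge _ a hF1 U hc1 h0 hz 0 (by omega)
        (Nat.pos_of_ne_zero (hane z hz0))
      have h3 := (SimpleGraph.deleteEdges_adj.mp hadj).1.1
      exact hane u h3 hu'
    obtain ⟨x, hxU, y, hyU, hUa⟩ := interval_of_connected _ a ha hF1 U hc1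
    obtain ⟨x', hxU', y', hyU', hUb⟩ := interval_of_connected _ b hb hF2 U hc2
    have hxy : a x ≤ a y := ((hUa x).mp hxU).2
    have hxy' : b x' ≤ b y' := ((hUb x').mp hxU').2
    have hyn : a y < n := ZMod.val_lt y
    have hyn' : b y' < n := ZMod.val_lt _
    have hx1 : 1 ≤ a x := Nat.one_le_iff_ne_zero.mpr (hane x (fun h' => h0U (h' ▸ hxU)))
    have hUa' : ∀ v, v ∈ U ↔ (v - ((a x : ℕ) : ZMod n)).val < a y - a x + 1 := by
      intro v
      rw [hUa v, val_sub_lt_iff v (a x) (a y) hxy hyn]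
    have hUb' : ∀ v, v ∈ U ↔ (σ v - (σ 0 + ((b x' : ℕ) : ZMod n))).val < b y' - b x' + 1 := by
      intro v
      rw [hUb v, ← sub_sub, val_sub_lt_iff (σ v - σ 0) (b x') (b y') hxy' hyn']
    -- the two sizes agree
    have hcard1 : (univ.filter (fun v : ZMod n => v ∈ U)).card = a y - a x + 1 := by
      rw [← card_val_lt ((a x : ℕ) : ZMod n) (a y - a x + 1) (by omega)]
      congr 1
      ext v
      simp only [mem_filter, mem_univ, true_and]
      exact hUa' v
    have hcard2 : (univ.filter (fun v : ZMod n => v ∈ U)).card = b y' - b x' + 1 := by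
      rw [← card_val_lt (σ 0 + ((b x' : ℕ) : ZMod n)) (b y' - b x' + 1) (by omega)]
      apply Finset.card_bij (fun v _ => σ v)
      · intro v hv
        simp only [mem_filter, mem_univ, true_and] at hv ⊢
        exact (hUb' v).mp hv
      · intro u _ v _ huv
        exact σ.injective huv
      · intro w hw
        refine ⟨σ.symm w, ?_, by simp⟩
        simp only [mem_filter, mem_univ, true_and] at hw ⊢
        rw [hUb' (σ.symm w)]
        simpa using hw
    have hcard : a y - a x + 1 = b y' - b x' + 1 := hcard1.symm.trans hcard2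
    have hsize : 2 ≤ a y - a x + 1 := by
      by_contra hlt
      have heq : a x = a y := by omega
      obtain ⟨u, hu, v, hv, huv⟩ := hU
      have h1 := (hUa u).mp hu
      have h2 := (hUa v).mp hv
      exact huv (ha (by omega))
    by_cases hbig : n - 2 ≤ a y - a x + 1
    · -- U contains both 2 and 3
      obtain ⟨u, hu, v, hv, hadj, hu', hv'⟩ := cross_edge _ a hF1 U hc1 hxU hyU 2 (by omega) (by omega)
      have h3 := (SimpleGraph.deleteEdges_adj.mp hadj).2
      apply h3
      have hu2 : u = 2 := by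
        have : u = ((2 : ℕ) : ZMod n) := ZMod.val_injective n (hu'.trans h2v.symm)
        simpa using this
      have hv3 : v = 3 := by
        have : v = ((3 : ℕ) : ZMod n) := ZMod.val_injective n (hv'.trans h3v.symm)
        simpa using this
      rw [hu2, hv3]
      simp [K]
    · by_cases hk3 : 3 ≤ a y - a x + 1
      · refine h ((a x : ℕ) : ZMod n) (σ 0 + ((b x' : ℕ) : ZMod n)) (a y - a x + 1) hk3 (by omega) ?_
        intro v
        rw [← hUa' v, hUb' v, hcard]
      · -- two elements: a common edge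
        have hax : a y = a x + 1 := by omega
        have hbx : b y' = b x' + 1 := by omega
        obtain ⟨u, hu, v, hv, hadj, hu', hv'⟩ :=
          cross_edge _ a hF1 U hc1 hxU hyU (a x) le_rfl (by omega)
        obtain ⟨u₂, hu₂, v₂, hv₂, hadj₂, hu₂', hv₂'⟩ :=
          cross_edge _ b hF2 U hc2 hxU' hyU' (b x') le_rfl (by omega)
        have hA := (SimpleGraph.deleteEdges_adj.mp hadj).1
        have hB := (SimpleGraph.deleteEdges_adj.mp hadj₂).1
        have e1 := (hUa u₂).mp hu₂
        have e2 := (hUa v₂).mp hv₂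
        have hne : a u₂ ≠ a v₂ := fun h' => (H₂.ne_of_adj hB) (ha h')
        apply hB.2
        refine ⟨hB.1.1, hB.1.2.1, ?_⟩
        omega

end Pool.Agent.MP_04668c_co.H6
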