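import Mathlib
import Pool.Agent.Lib.MP_04668c_co.H6.Ham

set_option autoImplicit false

namespace Pool.Agent.MP_04668c_co.H6

open Finset

/-- The permutations mapping one arc onto another one. -/
theorem card_arc_perm {n : ℕ} [NeZero n] (s t : ZMod n) (k : ℕ) (hk : k ≤ n) :
    Nat.card {σ : Equiv.Perm (ZMod n) // ∀ v, (v - s).val < k ↔ (σ v - t).val < k} ≤
      k.factorial * (n - k).factorial := by
  classical
  by_cases hne : Nonempty {σ : Equiv.Perm (ZMod n) // ∀ v, (v - s).val < k ↔ (σ v - t).val < k}
  · obtain ⟨⟨τ, hτ⟩⟩ := hne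
    let A : Type := {v : ZMod n // (v - s).val < k}
    let B : Type := {v : ZMod n // (v - t).val < k}
    let A' : Type := {v : ZMod n // ¬ (v - s).val < k}
    let B' : Type := {v : ZMod n // ¬ (v - t).val < k}
    have hA : Fintype.card A = k := by
      rw [Fintype.card_subtype]; exact card_val_lt s k hk
    have hA' : Fintype.card A' = n - k := by
      rw [Fintype.card_subtype_compl, ZMod.card, hA]
    have e1 : A ≃ B := τ.subtypeEquiv hτ
    have e2 : A' ≃ B' := τ.subtypeEquiv (fun v => not_congr (hτ v))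
    have hc1 : Fintype.card (A ≃ B) = k.factorial := by rw [Fintype.card_equiv e1, hA]
    have hc2 : Fintype.card (A' ≃ B') = (n - k).factorial := by rw [Fintype.card_equiv e2, hA']
    let φ : {σ : Equiv.Perm (ZMod n) // ∀ v, (v - s).val < k ↔ (σ v - t).val < k} →
        (A ≃ B) × (A' ≃ B') := fun σ =>
      (σ.1.subtypeEquiv σ.2, σ.1.subtypeEquiv (fun v => not_congr (σ.2 v)))
    have hφ : Function.Injective φ := by
      rintro ⟨σ, hσ⟩ ⟨ρ, hρ⟩ h
      apply Subtype.ext
      ext1 v
      by_cases hv : (v - s).val < k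
      · have h1 := congrArg (fun z : (A ≃ B) × (A' ≃ B') => (z.1 ⟨v, hv⟩).1) h
        exact h1
      · have h1 := congrArg (fun z : (A ≃ B) × (A' ≃ B') => (z.2 ⟨v, hv⟩).1) h
        exact h1
    calc Nat.card {σ : Equiv.Perm (ZMod n) // ∀ v, (v - s).val < k ↔ (σ v - t).val < k}
        ≤ Nat.card ((A ≃ B) × (A' ≃ B')) := Nat.card_le_card_of_injective φ hφ
      _ = k.factorial * (n - k).factorial := by
          rw [Nat.card_eq_fintype_card, Fintype.card_prod, hc1, hc2]
  · rw [not_nonempty_iff] at hne
    rw [Nat.card_of_isEmpty]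
    exact Nat.zero_le _

theorem factorial_exchange (c p m : ℕ) (hcp : c ≤ p) :
    (c + m).factorial * p.factorial ≤ c.factorial * (p + m).factorial := by
  induction m with
  | zero => simp
  | succ m ih =>
    have h1 : (c + (m + 1)).factorial = (c + m + 1) * (c + m).factorial := by
      rw [← add_assoc, Nat.factorial_succ]
    have h2 : (p + (m + 1)).factorial = (p + m + 1) * (p + m).factorial := by
      rw [← add_assoc, Nat.factorial_succ]
    rw [h1, h2]
    calc (c + m + 1) * (c + m).factorial * p.factorial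
        = (c + m + 1) * ((c + m).factorial * p.factorial) := by ring
      _ ≤ (p + m + 1) * (c.factorial * (p + m).factorial) := by
          apply Nat.mul_le_mul _ ih
          omega
      _ = c.factorial * ((p + m + 1) * (p + m).factorial) := by ring

theorem sum_factorial_le (n : ℕ) (hn : 8 ≤ n) :
    ∑ k ∈ Finset.Icc 3 (n - 3), k.factorial * (n - k).factorial ≤ 36 * (n - 3).factorial := by
  obtain ⟨m, rfl⟩ := Nat.exists_eq_add_of_le hn
  have hsplit : Finset.Icc 3 (8 + m - 3) ⊆
      insert 3 (insert (8 + m - 3) (Finset.Icc 4 (8 + m - 4))) := by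
    intro k hk
    simp only [Finset.mem_Icc, Finset.mem_insert] at hk ⊢
    omega
  have hterm : ∀ k ∈ Finset.Icc 4 (8 + m - 4), k.factorial * (8 + m - k).factorial ≤
      24 * (4 + m).factorial := by
    intro k hk
    rw [Finset.mem_Icc] at hk
    obtain ⟨j, hj⟩ := Nat.exists_eq_add_of_le hk.1
    have h1 := factorial_exchange 4 (8 + m - k) j (by omega)
    have h2 : 8 + m - k + j = 4 + m := by omega
    rw [h2] at h1
    rw [hj] at h1 ⊢
    simpa [Nat.factorial] using h1
  have h5 : (5 + m).factorial = (5 + m) * (4 + m).factorial := by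
    have : 5 + m = (4 + m) + 1 := by ring
    rw [this, Nat.factorial_succ]
  calc ∑ k ∈ Finset.Icc 3 (8 + m - 3), k.factorial * (8 + m - k).factorial
      ≤ ∑ k ∈ insert 3 (insert (8 + m - 3) (Finset.Icc 4 (8 + m - 4))),
          k.factorial * (8 + m - k).factorial :=
        Finset.sum_le_sum_of_subset hsplit
    _ ≤ (3 : ℕ).factorial * (8 + m - 3).factorial + ((8 + m - 3).factorial * (8 + m - (8 + m - 3)).factorial
          + ∑ k ∈ Finset.Icc 4 (8 + m - 4), k.factorial * (8 + m - k).factorial) := by
        have i1 : (3 : ℕ) ∉ insert (8 + m - 3) (Finset.Icc 4 (8 + m - 4)) := by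
          simp only [Finset.mem_Icc, Finset.mem_insert]; omega
        have i2 : (8 + m - 3) ∉ (Finset.Icc 4 (8 + m - 4)) := by
          simp only [Finset.mem_Icc]; omega
        rw [Finset.sum_insert i1, Finset.sum_insert i2]
    _ ≤ 6 * (5 + m).factorial + ((5 + m).factorial * 6 + (5 + m) * (24 * (4 + m).factorial)) := by
        have e1 : 8 + m - 3 = 5 + m := by omega
        have e2 : 8 + m - (8 + m - 3) = 3 := by omega
        have e3 : (3 : ℕ).factorial = 6 := rfl
        rw [e2, e1, e3]
        have h6 := Finset.sum_le_card_nsmul (Finset.Icc 4 (8 + m - 4))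
          (fun k => k.factorial * (8 + m - k).factorial) _ hterm
        rw [Nat.card_Icc, smul_eq_mul] at h6
        have h7 : 8 + m - 4 + 1 - 4 ≤ 5 + m := by omega
        have h8 := Nat.mul_le_mul_right (24 * (4 + m).factorial) h7
        omega
    _ = 36 * (8 + m - 3).factorial := by
        have e1 : 8 + m - 3 = 5 + m := by omega
        rw [e1, h5]; ring

/-- All but a proportion of at most `72 / n` of the pairs of Hamiltonian cycles. -/
theorem random_pair (n : ℕ) [NeZero n] :
    n * Nat.card {σ : Equiv.Perm (ZMod n) // ¬ HasDrawing (twoCycles n σ) 9} ≤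
      72 * n.factorial := by
  classical
  have hperm : Nat.card (Equiv.Perm (ZMod n)) = n.factorial := by
    rw [Nat.card_eq_fintype_card, Fintype.card_perm, ZMod.card]
  by_cases hn : n ≤ 72
  · have h1 : Nat.card {σ : Equiv.Perm (ZMod n) // ¬ HasDrawing (twoCycles n σ) 9} ≤
        n.factorial := by
      rw [← hperm]
      exact Nat.card_le_card_of_injective (fun σ => σ.1) Subtype.val_injective
    exact Nat.mul_le_mul hn h1
  · have hn8 : 8 ≤ n := by omega
    have hsub : {σ : Equiv.Perm (ZMod n) | ¬ HasDrawing (twoCycles n σ) 9} ⊆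
        ⋃ p ∈ ((univ : Finset (ZMod n)) ×ˢ (univ : Finset (ZMod n))) ×ˢ Finset.Icc 3 (n - 3),
          {σ : Equiv.Perm (ZMod n) | ∀ v, (v - p.1.1).val < p.2 ↔ (σ v - p.1.2).val < p.2} := by
      intro σ hσ
      by_contra hcon
      apply hσ
      apply ham (by omega) σ
      intro s t k hk3 hkn hall
      apply hcon
      rw [Set.mem_iUnion₂]
      refine ⟨((s, t), k), ?_, hall⟩
      simp only [Finset.mem_product, Finset.mem_univ, true_and, Finset.mem_Icc]
      exact ⟨hk3, hkn⟩
    have h1 : Nat.card {σ : Equiv.Perm (ZMod n) // ¬ HasDrawing (twoCycles n σ) 9} ≤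
        ∑ p ∈ ((univ : Finset (ZMod n)) ×ˢ (univ : Finset (ZMod n))) ×ˢ Finset.Icc 3 (n - 3),
          (p.2).factorial * (n - p.2).factorial := by
      have h2 : Nat.card {σ : Equiv.Perm (ZMod n) // ¬ HasDrawing (twoCycles n σ) 9} =
          ({σ : Equiv.Perm (ZMod n) | ¬ HasDrawing (twoCycles n σ) 9}).ncard := rfl
      rw [h2]
      refine (Set.ncard_le_ncard hsub (Set.toFinite _)).trans ?_
      refine (Finset.set_ncard_biUnion_le _ _).trans ?_
      apply Finset.sum_le_sum
      intro p hp
      simp only [Finset.mem_product, Finset.mem_univ, true_and, Finset.mem_Icc] at hp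
      exact card_arc_perm p.1.1 p.1.2 p.2 (by omega)
    have h3 : ∑ p ∈ ((univ : Finset (ZMod n)) ×ˢ (univ : Finset (ZMod n))) ×ˢ Finset.Icc 3 (n - 3),
          (p.2).factorial * (n - p.2).factorial =
        (n * n) * ∑ k ∈ Finset.Icc 3 (n - 3), k.factorial * (n - k).factorial := by
      rw [Finset.sum_product]
      simp only [Finset.sum_const, Finset.card_product, Finset.card_univ, ZMod.card, smul_eq_mul]
    rw [h3] at h1
    have h4 := sum_factorial_le n hn8
    obtain ⟨m, rfl⟩ := Nat.exists_eq_add_of_le hn8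
    have e1 : 8 + m - 3 = 5 + m := by omega
    have h4' := h4
    rw [show (8 + m - 3).factorial = (5 + m).factorial from congrArg Nat.factorial e1] at h4'
    have h5 : (8 + m).factorial = (8 + m) * ((7 + m) * ((6 + m) * (5 + m).factorial)) := by
      have a1 : 8 + m = (7 + m) + 1 := by ring
      have a2 : 7 + m = (6 + m) + 1 := by ring
      have a3 : 6 + m = (5 + m) + 1 := by ring
      rw [a1, Nat.factorial_succ, a2, Nat.factorial_succ, a3, Nat.factorial_succ]
    rw [h5]
    calc (8 + m) * Nat.card {σ : Equiv.Perm (ZMod (8 + m)) // ¬ HasDrawing (twoCycles (8 + m) σ) 9}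
        ≤ (8 + m) * ((8 + m) * (8 + m) *
            ∑ k ∈ Finset.Icc 3 (8 + m - 3), k.factorial * (8 + m - k).factorial) :=
          Nat.mul_le_mul_left _ h1
      _ ≤ (8 + m) * ((8 + m) * (8 + m) * (36 * (5 + m).factorial)) := by
          apply Nat.mul_le_mul_left
          apply Nat.mul_le_mul_left
          exact h4'
      _ = ((8 + m) * (36 * ((8 + m) * (8 + m)))) * (5 + m).factorial := by ring
      _ ≤ ((8 + m) * (72 * ((7 + m) * (6 + m)))) * (5 + m).factorial := by
          apply Nat.mul_le_mul_right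
          apply Nat.mul_le_mul_left
          nlinarith [Nat.zero_le m]
      _ = 72 * ((8 + m) * ((7 + m) * ((6 + m) * (5 + m).factorial))) := by ring

end Pool.Agent.MP_04668c_co.H6
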